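import Pool.Agent.H30R2.PS.Fam

set_option autoImplicit false

/-!
Lists of deterministic finite automata, and networks which read their tables.
-/

namespace H522R3.Au

open Finset Pool.Agent.H30R2.PS

/-- a list of `m` total deterministic automata with `q` states over an alphabet with `k` letters -/
structure Auts (m q k : ℕ) where
  /-- transition functions -/
  tr : Fin m → Fin q → Fin k → Fin q
  /-- initial states -/
  ini : Fin m → Fin q
  /-- accepting states -/
  acc : Fin m → Fin q → Bool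

variable {m q k : ℕ}

/-- the state of the automaton `i` after reading the word -/
def Auts.run (A : Auts m q k) (i : Fin m) (wd : List (Fin k)) : Fin q := wd.foldl (A.tr i) (A.ini i)

/-- some word is accepted by all automata -/
def Auts.HasCommonWord (A : Auts m q k) : Prop := ∃ wd : List (Fin k), ∀ i, A.acc i (A.run i wd) = true

/-- names of the input bits: `tr i s a s'`, `ini i s`, `acc i s` -/
abbrev Nm (m q k : ℕ) : Type := (Fin m × Fin q × Fin k × Fin q) ⊕ (Fin m × Fin q) ⊕ (Fin m × Fin q)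

/-- the input bits: does the automaton `i` move from the state `s` with the letter `a` to `s'`, is `s` its
initial state, is `s` accepting -/
def bits (A : Auts m q k) : Nm m q k → Bool
  | Sum.inl (i, s, a, s') => decide (A.tr i s a = s')
  | Sum.inr (Sum.inl (i, s)) => decide (A.ini i = s)
  | Sum.inr (Sum.inr (i, s)) => A.acc i s

/-- renaming the letters by `σ` and the states of the automaton `i` by `ρ i` -/
def renA (σ : Equiv.Perm (Fin k)) (ρ : Fin m → Equiv.Perm (Fin q)) (A : Auts m q k) : Auts m q k where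
  tr i s a := ρ i (A.tr i ((ρ i).symm s) (σ.symm a))
  ini i := ρ i (A.ini i)
  acc i s := A.acc i ((ρ i).symm s)

/-- the induced permutation of the names of the input bits -/
def nm (σ : Equiv.Perm (Fin k)) (ρ : Fin m → Equiv.Perm (Fin q)) : Equiv.Perm (Nm m q k) where
  toFun
    | Sum.inl (i, s, a, s') => Sum.inl (i, ρ i s, σ a, ρ i s')
    | Sum.inr (Sum.inl (i, s)) => Sum.inr (Sum.inl (i, ρ i s))
    | Sum.inr (Sum.inr (i, s)) => Sum.inr (Sum.inr (i, ρ i s))
  invFun
    | Sum.inl (i, s, a, s') => Sum.inl (i, (ρ i).symm s, σ.symm a, (ρ i).symm s')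
    | Sum.inr (Sum.inl (i, s)) => Sum.inr (Sum.inl (i, (ρ i).symm s))
    | Sum.inr (Sum.inr (i, s)) => Sum.inr (Sum.inr (i, (ρ i).symm s))
  left_inv x := by
    rcases x with ⟨i, s, a, s'⟩ | ⟨i, s⟩ | ⟨i, s⟩ <;> simp
  right_inv x := by
    rcases x with ⟨i, s, a, s'⟩ | ⟨i, s⟩ | ⟨i, s⟩ <;> simp

/-- The network decides whether `m` automata with `q` states over `k` letters have a common word.  The wires carry
elements of `K`, and the bits are given to the network as the two elements `enc true`, `enc false` of `K`; the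
answer is given in the same way. -/
def Decides {K Gt : Type} [Fintype Gt] (enc : Bool → K) (N : Net (Nm m q k) K Gt) : Prop :=
  ∀ A : Auts m q k, (A.HasCommonWord → N.eval (fun x => enc (bits A x)) = enc true) ∧
    (¬ A.HasCommonWord → N.eval (fun x => enc (bits A x)) = enc false)

/-- the network is symmetric under the renaming of the letters by `σ` and of the states by `ρ` -/
def SymUnder {K Gt : Type} (N : Net (Nm m q k) K Gt) (σ : Equiv.Perm (Fin k))
    (ρ : Fin m → Equiv.Perm (Fin q)) : Prop :=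
  ∃ φ, N.IsAut (nm σ ρ) φ

/-- letters in `2w` quadruples and `3w` pairs: the quadruple `u` is translated by the element `U u` of Klein's
four-group, the letters of the pair `p` are exchanged if `a p = 1` -/
def blockPerm {w : ℕ} (U : Fin (2 * w) → Four) (a : Fin (3 * w) → ZMod 2) :
    Equiv.Perm ((Fin (2 * w) × Four) ⊕ (Fin (3 * w) × ZMod 2)) where
  toFun
    | Sum.inl x => Sum.inl (x.1, x.2 + U x.1)
    | Sum.inr x => Sum.inr (x.1, x.2 + a x.1)
  invFun
    | Sum.inl x => Sum.inl (x.1, x.2 - U x.1)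
    | Sum.inr x => Sum.inr (x.1, x.2 - a x.1)
  left_inv x := by
    rcases x with x | x
    · exact congrArg Sum.inl (Prod.ext rfl (add_sub_cancel_right _ _))
    · exact congrArg Sum.inr (Prod.ext rfl (add_sub_cancel_right _ _))
  right_inv x := by
    rcases x with x | x
    · exact congrArg Sum.inl (Prod.ext rfl (sub_add_cancel _ _))
    · exact congrArg Sum.inr (Prod.ext rfl (sub_add_cancel _ _))

/-- exchange the states `0` and `1` if `c = 1` -/
def swapIf (hq : 4 ≤ q) (c : ZMod 2) : Equiv.Perm (Fin q) :=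
  if c = 1 then Equiv.swap ⟨0, by omega⟩ ⟨1, by omega⟩ else 1

open Classical in
/-- exchange the states `0` and `1` in all automata `α x` with `b x = 1` -/
noncomputable def stPerm {X : Type} (hq : 4 ≤ q) (α : X ↪ Fin m) (b : X → ZMod 2) (i : Fin m) :
    Equiv.Perm (Fin q) :=
  if h : ∃ x, α x = i then swapIf hq (b h.choose) else 1

lemma bits_ren (σ : Equiv.Perm (Fin k)) (ρ : Fin m → Equiv.Perm (Fin q)) (A : Auts m q k)
    (x : Nm m q k) : bits (renA σ ρ A) (nm σ ρ x) = bits A x := by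
  rcases x with ⟨i, s, a, s'⟩ | ⟨i, s⟩ | ⟨i, s⟩
  · show decide (ρ i (A.tr i ((ρ i).symm (ρ i s)) (σ.symm (σ a))) = ρ i s') = decide (A.tr i s a = s')
    rw [Equiv.symm_apply_apply, Equiv.symm_apply_apply]
    simp
  · show decide (ρ i (A.ini i) = ρ i s) = decide (A.ini i = s)
    simp
  · show A.acc i ((ρ i).symm (ρ i s)) = A.acc i s
    rw [Equiv.symm_apply_apply]

lemma nm_mul (σ σ' : Equiv.Perm (Fin k)) (ρ ρ' : Fin m → Equiv.Perm (Fin q)) :
    nm (σ * σ') (fun i => ρ i * ρ' i) = nm σ ρ * nm σ' ρ' := by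
  refine Equiv.ext fun x => ?_
  rcases x with ⟨i, s, a, s'⟩ | ⟨i, s⟩ | ⟨i, s⟩ <;> rfl

lemma nm_one : nm (1 : Equiv.Perm (Fin k)) (fun _ : Fin m => (1 : Equiv.Perm (Fin q))) = 1 := by
  refine Equiv.ext fun x => ?_
  rcases x with ⟨i, s, a, s'⟩ | ⟨i, s⟩ | ⟨i, s⟩ <;> rfl

lemma blockPerm_add {w : ℕ} (U U' : Fin (2 * w) → Four) (a a' : Fin (3 * w) → ZMod 2) :
    blockPerm (U + U') (a + a') = blockPerm U a * blockPerm U' a' := by
  refine Equiv.ext fun x => ?_
  rcases x with x | x
  · refine congrArg Sum.inl (Prod.ext rfl ?_)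
    show x.2 + (U x.1 + U' x.1) = x.2 + U' x.1 + U x.1
    abel
  · refine congrArg Sum.inr (Prod.ext rfl ?_)
    show x.2 + (a x.1 + a' x.1) = x.2 + a' x.1 + a x.1
    abel

lemma blockPerm_zero {w : ℕ} : blockPerm (0 : Fin (2 * w) → Four) (0 : Fin (3 * w) → ZMod 2) = 1 := by
  refine Equiv.ext fun x => ?_
  rcases x with x | x
  · refine congrArg Sum.inl (Prod.ext rfl ?_)
    show x.2 + 0 = x.2
    rw [add_zero]
  · refine congrArg Sum.inr (Prod.ext rfl ?_)
    show x.2 + 0 = x.2
    rw [add_zero]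

lemma swapIf_add (hq : 4 ≤ q) (c c' : ZMod 2) :
    swapIf hq (c + c') = swapIf hq c * swapIf hq c' := by
  have hz : ∀ c : ZMod 2, c = 0 ∨ c = 1 := by decide
  have h11 : (1 : ZMod 2) + 1 = 0 := by decide
  have h01 : (0 : ZMod 2) ≠ 1 := by decide
  unfold swapIf
  rcases hz c with rfl | rfl <;> rcases hz c' with rfl | rfl <;> simp [h11, h01]

lemma swapIf_zero (hq : 4 ≤ q) : swapIf hq 0 = 1 := if_neg (by decide)

lemma stPerm_add {X : Type} (hq : 4 ≤ q) (α : X ↪ Fin m) (b b' : X → ZMod 2) (i : Fin m) :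
    stPerm hq α (b + b') i = stPerm hq α b i * stPerm hq α b' i := by
  unfold stPerm
  split_ifs with h
  · exact swapIf_add hq _ _
  · rfl

lemma stPerm_zero {X : Type} (hq : 4 ≤ q) (α : X ↪ Fin m) (i : Fin m) : stPerm hq α 0 i = 1 := by
  unfold stPerm
  split_ifs with h
  · exact swapIf_zero hq
  · rfl

lemma stPerm_apply {X : Type} (hq : 4 ≤ q) (α : X ↪ Fin m) (b : X → ZMod 2) (x : X) :
    stPerm hq α b (α x) = swapIf hq (b x) := by
  have h : ∃ y, α y = α x := ⟨x, rfl⟩
  unfold stPerm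
  rw [dif_pos h, α.injective h.choose_spec]

lemma stPerm_out {X : Type} (hq : 4 ≤ q) (α : X ↪ Fin m) (b : X → ZMod 2) (i : Fin m)
    (h : ¬ ∃ x, α x = i) : stPerm hq α b i = 1 := dif_neg h

/-- letters outside of the blocks are fixed -/
lemma via_add {w : ℕ} (κ : ((Fin (2 * w) × Four) ⊕ (Fin (3 * w) × ZMod 2)) ↪ Fin k)
    (U U' : Fin (2 * w) → Four) (a a' : Fin (3 * w) → ZMod 2) :
    (blockPerm (U + U') (a + a')).viaEmbedding κ =
      (blockPerm U a).viaEmbedding κ * (blockPerm U' a').viaEmbedding κ := by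
  rw [blockPerm_add]
  refine Equiv.ext fun v => ?_
  rw [Equiv.Perm.mul_apply]
  by_cases hv : v ∈ Set.range κ
  · obtain ⟨x, rfl⟩ := hv
    rw [Equiv.Perm.viaEmbedding_apply, Equiv.Perm.viaEmbedding_apply, Equiv.Perm.viaEmbedding_apply]
    rfl
  · rw [Equiv.Perm.viaEmbedding_apply_of_notMem _ _ _ hv, Equiv.Perm.viaEmbedding_apply_of_notMem _ _ _ hv,
      Equiv.Perm.viaEmbedding_apply_of_notMem _ _ _ hv]

lemma via_zero {w : ℕ} (κ : ((Fin (2 * w) × Four) ⊕ (Fin (3 * w) × ZMod 2)) ↪ Fin k) :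
    (blockPerm (0 : Fin (2 * w) → Four) (0 : Fin (3 * w) → ZMod 2)).viaEmbedding κ = 1 := by
  rw [blockPerm_zero]
  refine Equiv.ext fun v => ?_
  by_cases hv : v ∈ Set.range κ
  · obtain ⟨x, rfl⟩ := hv
    rw [Equiv.Perm.viaEmbedding_apply]
    rfl
  · rw [Equiv.Perm.viaEmbedding_apply_of_notMem _ _ _ hv]
    rfl

end H522R3.Au
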