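import Pool.Agent.H522R3.Au.SymN
import Pool.Agent.H522R3.Au.Defs

set_option autoImplicit false
set_option linter.unusedSectionVars false

/-!
Symmetrisation of the networks which decide whether automata have a common word.
-/

namespace H522R3.Au

open Finset Pool.Agent.H30R2.PS

variable {m q k : ℕ} {K Gt : Type} [Fintype Gt]

/-- the renamings act on the names of the input bits -/
def nmHom (m q k : ℕ) : Equiv.Perm (Fin k) × (Fin m → Equiv.Perm (Fin q)) →* Equiv.Perm (Nm m q k) where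
  toFun d := nm d.1 d.2
  map_one' := nm_one
  map_mul' d d' := nm_mul d.1 d'.1 d.2 d'.2

lemma bits_nm (σ : Equiv.Perm (Fin k)) (ρ : Fin m → Equiv.Perm (Fin q)) (A : Auts m q k)
    (x : Nm m q k) : bits A (nm σ ρ x) = bits (renA σ⁻¹ (fun i => (ρ i)⁻¹) A) x := by
  have h := bits_ren σ ρ (renA σ⁻¹ (fun i => (ρ i)⁻¹) A) x
  rw [← h]
  congr 1
  rcases A with ⟨tr, ini, acc⟩
  unfold renA
  congr 1
  · funext i s a
    show tr i s a = ρ i ((ρ i)⁻¹ (tr i ((ρ i)⁻¹.symm ((ρ i).symm s)) (σ⁻¹.symm (σ.symm a))))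
    have e1 : ρ i ((ρ i)⁻¹ (tr i ((ρ i)⁻¹.symm ((ρ i).symm s)) (σ⁻¹.symm (σ.symm a)))) =
        tr i ((ρ i)⁻¹.symm ((ρ i).symm s)) (σ⁻¹.symm (σ.symm a)) := Equiv.apply_symm_apply _ _
    have e2 : (ρ i)⁻¹.symm ((ρ i).symm s) = s := Equiv.apply_symm_apply (ρ i) s
    have e3 : σ⁻¹.symm (σ.symm a) = a := Equiv.apply_symm_apply σ a
    rw [e1, e2, e3]
  · funext i
    exact (Equiv.apply_symm_apply (ρ i) _).symm
  · funext i s
    show acc i s = acc i ((ρ i)⁻¹.symm ((ρ i).symm s))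
    have e2 : (ρ i)⁻¹.symm ((ρ i).symm s) = s := Equiv.apply_symm_apply (ρ i) s
    rw [e2]

lemma run_ren (σ : Equiv.Perm (Fin k)) (ρ : Fin m → Equiv.Perm (Fin q)) (A : Auts m q k) (i : Fin m)
    (wd : List (Fin k)) : (renA σ ρ A).run i (wd.map σ) = ρ i (A.run i wd) := by
  show (wd.map σ).foldl ((renA σ ρ A).tr i) (ρ i (A.ini i)) = ρ i (wd.foldl (A.tr i) (A.ini i))
  generalize A.ini i = s
  induction wd generalizing s with
  | nil => rfl
  | cons a wd ih =>
    rw [List.map_cons, List.foldl_cons, List.foldl_cons, ← ih]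
    congr 1
    show ρ i (A.tr i ((ρ i).symm (ρ i s)) (σ.symm (σ a))) = _
    rw [Equiv.symm_apply_apply, Equiv.symm_apply_apply]

lemma common_ren_of (σ : Equiv.Perm (Fin k)) (ρ : Fin m → Equiv.Perm (Fin q)) (A : Auts m q k)
    (h : A.HasCommonWord) : (renA σ ρ A).HasCommonWord := by
  obtain ⟨wd, h⟩ := h
  refine ⟨wd.map σ, fun i => ?_⟩
  rw [run_ren]
  show A.acc i ((ρ i).symm (ρ i (A.run i wd))) = true
  rw [Equiv.symm_apply_apply]
  exact h i

lemma renA_renA (σ : Equiv.Perm (Fin k)) (ρ : Fin m → Equiv.Perm (Fin q)) (A : Auts m q k) :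
    renA σ ρ (renA σ⁻¹ (fun i => (ρ i)⁻¹) A) = A := by
  rcases A with ⟨tr, ini, acc⟩
  unfold renA
  congr 1
  · funext i s a
    show ρ i ((ρ i)⁻¹ (tr i ((ρ i)⁻¹.symm ((ρ i).symm s)) (σ⁻¹.symm (σ.symm a)))) = tr i s a
    have e1 : ρ i ((ρ i)⁻¹ (tr i ((ρ i)⁻¹.symm ((ρ i).symm s)) (σ⁻¹.symm (σ.symm a)))) =
        tr i ((ρ i)⁻¹.symm ((ρ i).symm s)) (σ⁻¹.symm (σ.symm a)) := Equiv.apply_symm_apply _ _
    have e2 : (ρ i)⁻¹.symm ((ρ i).symm s) = s := Equiv.apply_symm_apply (ρ i) s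
    have e3 : σ⁻¹.symm (σ.symm a) = a := Equiv.apply_symm_apply σ a
    rw [e1, e2, e3]
  · funext i
    exact Equiv.apply_symm_apply (ρ i) _
  · funext i s
    show acc i ((ρ i)⁻¹.symm ((ρ i).symm s)) = acc i s
    have e2 : (ρ i)⁻¹.symm ((ρ i).symm s) = s := Equiv.apply_symm_apply (ρ i) s
    rw [e2]

lemma common_ren_iff (σ : Equiv.Perm (Fin k)) (ρ : Fin m → Equiv.Perm (Fin q)) (A : Auts m q k) :
    (renA σ⁻¹ (fun i => (ρ i)⁻¹) A).HasCommonWord ↔ A.HasCommonWord := by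
  constructor
  · intro h
    have := common_ren_of σ ρ _ h
    rwa [renA_renA] at this
  · intro h
    exact common_ren_of _ _ A h

/-- **Symmetrisation** -/
theorem sym_auts (enc : Bool → K) (henc : enc true ≠ enc false)
    (D : Subgroup (Equiv.Perm (Fin k) × (Fin m → Equiv.Perm (Fin q))))
    (N : Net (Nm m q k) K Gt) (hN : Decides enc N) :
    ∃ (Gt' : Type) (_ : Fintype Gt') (N' : Net (Nm m q k) K Gt'), Decides enc N' ∧
      (∀ d ∈ D, SymUnder N' d.1 d.2) ∧ Fintype.card Gt' = Nat.card D * Fintype.card Gt + 1 := by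
  classical
  let act : D →* Equiv.Perm (Nm m q k) := (nmHom m q k).comp D.subtype
  refine ⟨Option (D × Gt), inferInstance, symN N act (allGate (enc true) (enc false)), ?_, ?_, ?_⟩
  · intro A
    have hval : ∀ d : D, N.eval ((fun x => enc (bits A x)) ∘ act d) =
        N.eval (fun x => enc (bits (renA d.1.1⁻¹ (fun i => (d.1.2 i)⁻¹) A) x)) := by
      intro d
      congr 1
      funext x
      exact congrArg enc (bits_nm d.1.1 d.1.2 A x)
    constructor
    · intro hA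
      rw [symN_eval]
      apply (allGate_sum _ _ _).2.1
      intro d
      rw [hval]
      exact (hN _).1 ((common_ren_iff d.1.1 d.1.2 A).mpr hA)
    · intro hA
      rw [symN_eval]
      apply (allGate_sum _ _ _).2.2
      refine ⟨1, ?_⟩
      rw [hval]
      intro h
      apply henc
      rw [← h]
      exact (hN _).2 (fun h' => hA ((common_ren_iff _ _ A).mp h'))
  · intro d hd
    exact symN_aut N act _ ⟨d, hd⟩
  · rw [Fintype.card_option, Fintype.card_prod, Nat.card_eq_fintype_card]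

end H522R3.Au
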