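import Pool.Agent.H522R3.Au.Mk
import Pool.Agent.H522R3.Au.Defs

set_option autoImplicit false
set_option linter.unusedSectionVars false

/-!
The lists of automata which encode a twisted system of equations on a cubic structure.
-/

namespace H522R3.Au

open Finset Pool.Agent.H30R2.PS

variable {m q k w : ℕ}

/-- letters -/
abbrev Lt (w : ℕ) : Type := (Fin (2 * w) × Four) ⊕ (Fin (3 * w) × ZMod 2)

/-- the four relevant states -/
inductive St
  | val (b : ZMod 2)
  | start
  | dead

/-- numbers of the states -/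
def code (hq : 4 ≤ q) : St → Fin q
  | St.val b => ⟨b.val, by have := ZMod.val_lt b; omega⟩
  | St.start => ⟨2, by omega⟩
  | St.dead => ⟨3, by omega⟩

/-- the state with a given number -/
def decode (s : Fin q) : Option St :=
  if s.1 = 0 then some (St.val 0) else if s.1 = 1 then some (St.val 1) else
  if s.1 = 2 then some St.start else if s.1 = 3 then some St.dead else none

lemma zc : ∀ c : ZMod 2, c = 0 ∨ c = 1 := by decide

lemma decode_code (hq : 4 ≤ q) (st : St) : decode (code hq st) = some st := by
  rcases st with b | _ | _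
  · rcases zc b with rfl | rfl
    · rfl
    · rfl
  · rfl
  · rfl

lemma code_inj (hq : 4 ≤ q) {st st' : St} (h : code hq st = code hq st') : st = st' := by
  have := congrArg decode h
  rw [decode_code, decode_code] at this
  exact Option.some.inj this

/-- reading a value -/
def upd : St → ZMod 2 → St
  | St.start, v => St.val v
  | St.val b, v => if b = v then St.val b else St.dead
  | St.dead, _ => St.dead

/-- translation of the values -/
def shift (c : ZMod 2) : St → St
  | St.val b => St.val (b + c)
  | St.start => St.start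
  | St.dead => St.dead

lemma upd_shift (c : ZMod 2) (st : St) (v : ZMod 2) : upd (shift c st) (v + c) = shift c (upd st v) := by
  rcases st with b | _ | _
  · show (if b + c = v + c then St.val (b + c) else St.dead) = shift c (if b = v then St.val b else St.dead)
    by_cases h : b = v
    · rw [if_pos h, if_pos (by rw [h])]
      rfl
    · rw [if_neg h, if_neg (fun h' => h (add_right_cancel h'))]
      rfl
  · rfl
  · rfl

lemma swapIf_code (hq : 4 ≤ q) (c : ZMod 2) (st : St) :
    swapIf hq c (code hq st) = code hq (shift c st) := by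
  rcases zc c with rfl | rfl
  · rw [swapIf_zero]
    rcases st with b | _ | _
    · show code hq (St.val b) = code hq (St.val (b + 0))
      rw [add_zero]
    · rfl
    · rfl
  · have h1 : swapIf hq (1 : ZMod 2) = Equiv.swap ⟨0, by omega⟩ ⟨1, by omega⟩ := if_pos rfl
    rw [h1]
    rcases st with b | _ | _
    · rcases zc b with rfl | rfl
      · have : (⟨0, by omega⟩ : Fin q) = code hq (St.val 0) := rfl
        rw [this, Equiv.swap_apply_left]
        rfl
      · have : (⟨1, by omega⟩ : Fin q) = code hq (St.val 1) := rfl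
        rw [this, Equiv.swap_apply_right]
        rfl
    · rw [Equiv.swap_apply_of_ne_of_ne]
      · rfl
      · intro h
        have h' : (2 : ℕ) = 0 := congrArg Fin.val h
        omega
      · intro h
        have h' : (2 : ℕ) = 1 := congrArg Fin.val h
        omega
    · rw [Equiv.swap_apply_of_ne_of_ne]
      · rfl
      · intro h
        have h' : (3 : ℕ) = 0 := congrArg Fin.val h
        omega
      · intro h
        have h' : (3 : ℕ) = 1 := congrArg Fin.val h
        omega

lemma code_of_decode (hq : 4 ≤ q) (s : Fin q) (st : St) (h : decode s = some st) : code hq st = s := by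
  unfold decode at h
  split_ifs at h with h0 h1 h2 h3
  · rw [← Option.some.inj h]; exact Fin.ext h0.symm
  · rw [← Option.some.inj h]; exact Fin.ext h1.symm
  · rw [← Option.some.inj h]; exact Fin.ext h2.symm
  · rw [← Option.some.inj h]; exact Fin.ext h3.symm

lemma swapIf_none (hq : 4 ≤ q) (c : ZMod 2) (s : Fin q) (h : decode s = none) : swapIf hq c s = s := by
  rcases zc c with rfl | rfl
  · rw [swapIf_zero]; rfl
  · have h1 : swapIf hq (1 : ZMod 2) = Equiv.swap ⟨0, by omega⟩ ⟨1, by omega⟩ := if_pos rfl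
    rw [h1, Equiv.swap_apply_of_ne_of_ne]
    · rintro rfl; exact absurd h (by unfold decode; simp)
    · rintro rfl; exact absurd h (by unfold decode; simp)

lemma decode_swapIf (hq : 4 ≤ q) (c : ZMod 2) (s : Fin q) :
    decode (swapIf hq c s) = (decode s).map (shift c) := by
  rcases h : decode s with _ | st
  · rw [swapIf_none hq c s h, h]; rfl
  · rw [← code_of_decode hq s st h, swapIf_code, decode_code]
    rfl

open Classical in
/-- the letter with a given number -/
noncomputable def dl (κ : Lt w ↪ Fin k) (a : Fin k) : Option (Lt w) :=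
  if h : ∃ x, κ x = a then some h.choose else none

lemma dl_apply (κ : Lt w ↪ Fin k) (x : Lt w) : dl κ (κ x) = some x := by
  have h : ∃ y, κ y = κ x := ⟨x, rfl⟩
  unfold dl
  rw [dif_pos h, κ.injective h.choose_spec]

lemma dl_none (κ : Lt w ↪ Fin k) (a : Fin k) (h : a ∉ Set.range κ) : dl κ a = none := dif_neg h

lemma dl_via (κ : Lt w ↪ Fin k) (σ : Equiv.Perm (Lt w)) (a : Fin k) :
    dl κ (σ.viaEmbedding κ a) = (dl κ a).map σ := by
  by_cases hv : a ∈ Set.range κ
  · obtain ⟨x, rfl⟩ := hv
    rw [Equiv.Perm.viaEmbedding_apply, dl_apply, dl_apply]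
    rfl
  · rw [Equiv.Perm.viaEmbedding_apply_of_notMem _ _ _ hv, dl_none κ a hv]
    rfl

/-- the value of a letter for the automaton of `pc` -/
def lv (π : Slot w ≃ Fin (3 * w) × Bool) (t : Slot w → ZMod 2) (pc : Fin (3 * w) × Bool) :
    Lt w → Option (ZMod 2)
  | Sum.inl (u, x) => if (π.symm pc).1 = u then some (lab (π.symm pc).2 x + t (π.symm pc)) else none
  | Sum.inr (p, b) => if pc.1 = p then some b else none

lemma lv_shift (π : Slot w ≃ Fin (3 * w) × Bool) (t : Slot w → ZMod 2) (pc : Fin (3 * w) × Bool)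
    (h : Gp w) (l : Lt w) :
    lv π (t + BB π h) pc (blockPerm h.2 h.1 l) = (lv π t pc l).map (fun v => v + h.1 pc.1) := by
  rcases l with ⟨u, x⟩ | ⟨p, b⟩
  · show (if (π.symm pc).1 = u then some (lab (π.symm pc).2 (x + h.2 u) + (t + BB π h) (π.symm pc)) else none)
      = Option.map (fun v => v + h.1 pc.1) (if (π.symm pc).1 = u then
        some (lab (π.symm pc).2 x + t (π.symm pc)) else none)
    by_cases hu : (π.symm pc).1 = u
    · rw [if_pos hu, if_pos hu, Option.map_some]
      congr 1
      rw [Pi.add_apply, BB_apply, Equiv.apply_symm_apply, lab_add, ← hu]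
      have h2 : ∀ a b c d : ZMod 2, a + b + (c + (d + b)) = a + c + d := by decide
      exact h2 _ _ _ _
    · rw [if_neg hu, if_neg hu]
      rfl
  · show (if pc.1 = p then some (b + h.1 p) else none) = Option.map (fun v => v + h.1 pc.1)
      (if pc.1 = p then some b else none)
    by_cases hp : pc.1 = p
    · rw [if_pos hp, if_pos hp, Option.map_some, hp]
    · rw [if_neg hp, if_neg hp]
      rfl

/-- one step -/
def stepC (v : Option (ZMod 2)) (st : St) : St :=
  match v with
  | none => st
  | some v => upd st v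

lemma stepC_shift (v : Option (ZMod 2)) (c : ZMod 2) (st : St) :
    stepC (v.map (fun v => v + c)) (shift c st) = shift c (stepC v st) := by
  rcases v with _ | v
  · rfl
  · exact upd_shift c st v

/-- the automaton of `pc` checks that all values are equal -/
noncomputable def trC (hq : 4 ≤ q) (κ : Lt w ↪ Fin k) (π : Slot w ≃ Fin (3 * w) × Bool)
    (t : Slot w → ZMod 2) (pc : Fin (3 * w) × Bool) (s : Fin q) (a : Fin k) : Fin q :=
  match decode s, dl κ a with
  | some st, some l => code hq (stepC (lv π t pc l) st)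
  | _, _ => s

lemma trC_equi (hq : 4 ≤ q) (κ : Lt w ↪ Fin k) (π : Slot w ≃ Fin (3 * w) × Bool)
    (t : Slot w → ZMod 2) (pc : Fin (3 * w) × Bool) (h : Gp w) (s : Fin q) (a : Fin k) :
    trC hq κ π (t + BB π h) pc (swapIf hq (h.1 pc.1) s) ((blockPerm h.2 h.1).viaEmbedding κ a) =
      swapIf hq (h.1 pc.1) (trC hq κ π t pc s a) := by
  unfold trC
  rw [decode_swapIf, dl_via]
  rcases hs : decode s with _ | st
  · rfl
  · rcases ha : dl κ a with _ | l
    · rfl
    · show code hq (stepC (lv π (t + BB π h) pc (blockPerm h.2 h.1 l)) (shift (h.1 pc.1) st)) =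
        swapIf hq (h.1 pc.1) (code hq (stepC (lv π t pc l) st))
      rw [lv_shift, stepC_shift, swapIf_code]

/-- the letter belongs to the block -/
def inBlock (z : Fin (2 * w) ⊕ Fin (3 * w)) (l : Lt w) : Bool :=
  match z, l with
  | Sum.inl u, Sum.inl (u', _) => decide (u' = u)
  | Sum.inr p, Sum.inr (p', _) => decide (p' = p)
  | _, _ => false

lemma inBlock_perm (z : Fin (2 * w) ⊕ Fin (3 * w)) (U : Fin (2 * w) → Four) (a : Fin (3 * w) → ZMod 2)
    (l : Lt w) : inBlock z (blockPerm U a l) = inBlock z l := by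
  rcases z with u | p <;> rcases l with ⟨u', x⟩ | ⟨p', b⟩ <;> rfl

/-- the automaton of a block checks that a letter of the block has been read -/
noncomputable def trR (hq : 4 ≤ q) (κ : Lt w ↪ Fin k) (z : Fin (2 * w) ⊕ Fin (3 * w)) (s : Fin q)
    (a : Fin k) : Fin q :=
  match dl κ a with
  | some l => if inBlock z l = true then code hq (St.val 0) else s
  | none => s

lemma trR_equi (hq : 4 ≤ q) (κ : Lt w ↪ Fin k) (z : Fin (2 * w) ⊕ Fin (3 * w))
    (U : Fin (2 * w) → Four) (b : Fin (3 * w) → ZMod 2) (s : Fin q) (a : Fin k) :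
    trR hq κ z s ((blockPerm U b).viaEmbedding κ a) = trR hq κ z s a := by
  unfold trR
  rw [dl_via]
  rcases ha : dl κ a with _ | l
  · rfl
  · show (if inBlock z (blockPerm U b l) = true then code hq (St.val 0) else s) = _
    rw [inBlock_perm]

open Classical in
/-- number of a block automaton -/
noncomputable def dr {n : ℕ} (ρR : (Fin (2 * w) ⊕ Fin (3 * w)) ↪ Fin n) (y : Fin n) :
    Option (Fin (2 * w) ⊕ Fin (3 * w)) :=
  if h : ∃ z, ρR z = y then some h.choose else none

lemma dr_apply {n : ℕ} (ρR : (Fin (2 * w) ⊕ Fin (3 * w)) ↪ Fin n) (z : Fin (2 * w) ⊕ Fin (3 * w)) :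
    dr ρR (ρR z) = some z := by
  have h : ∃ y, ρR y = ρR z := ⟨z, rfl⟩
  unfold dr
  rw [dif_pos h, ρR.injective h.choose_spec]

variable {n : ℕ}

/-- the transition functions -/
noncomputable def trI (hq : 4 ≤ q) (κ : Lt w ↪ Fin k) (ρR : (Fin (2 * w) ⊕ Fin (3 * w)) ↪ Fin n)
    (π : Slot w ≃ Fin (3 * w) × Bool) (t : Slot w → ZMod 2) (j : (Fin (3 * w) × Bool) ⊕ Fin n)
    (s : Fin q) (a : Fin k) : Fin q :=
  match j with
  | Sum.inl pc => trC hq κ π t pc s a
  | Sum.inr y => match dr ρR y with
    | some z => trR hq κ z s a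
    | none => s

/-- the accepting states -/
noncomputable def acI (hq : 4 ≤ q) (ρR : (Fin (2 * w) ⊕ Fin (3 * w)) ↪ Fin n)
    (j : (Fin (3 * w) × Bool) ⊕ Fin n) (s : Fin q) : Bool :=
  match j with
  | Sum.inl _ => !decide (s = code hq St.dead)
  | Sum.inr y => match dr ρR y with
    | some _ => decide (s = code hq (St.val 0))
    | none => true

/-- the list of automata -/
noncomputable def inst (hq : 4 ≤ q) (κ : Lt w ↪ Fin k) (ρR : (Fin (2 * w) ⊕ Fin (3 * w)) ↪ Fin n)
    (e : (Fin (3 * w) × Bool) ⊕ Fin n ≃ Fin m) (π : Slot w ≃ Fin (3 * w) × Bool)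
    (t : Slot w → ZMod 2) : Auts m q k where
  tr i s a := trI hq κ ρR π t (e.symm i) s a
  ini _ := code hq St.start
  acc i s := acI hq ρR (e.symm i) s

/-- the permutation of the names -/
noncomputable def prm (hq : 4 ≤ q) (κ : Lt w ↪ Fin k) (α : Fin (3 * w) × Bool ↪ Fin m) (h : Gp w) :
    Equiv.Perm (Nm m q k) :=
  nm ((blockPerm h.2 h.1).viaEmbedding κ) (stPerm hq α (fun pc => h.1 pc.1))

lemma stPerm_e (hq : 4 ≤ q) (α : Fin (3 * w) × Bool ↪ Fin m)
    (e : (Fin (3 * w) × Bool) ⊕ Fin n ≃ Fin m) (he : ∀ pc, e (Sum.inl pc) = α pc)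
    (b : Fin (3 * w) × Bool → ZMod 2) (i : Fin m) :
    (∀ pc, e.symm i = Sum.inl pc → stPerm hq α b i = swapIf hq (b pc)) ∧
      (∀ y, e.symm i = Sum.inr y → stPerm hq α b i = 1) := by
  constructor
  · intro pc hpc
    have : i = α pc := by rw [← he, ← hpc, Equiv.apply_symm_apply]
    rw [this, stPerm_apply]
  · intro y hy
    apply stPerm_out
    rintro ⟨pc, hpc⟩
    rw [← he] at hpc
    rw [← hpc, Equiv.symm_apply_apply] at hy
    exact absurd hy (by simp)

lemma inst_equi (hq : 4 ≤ q) (κ : Lt w ↪ Fin k) (ρR : (Fin (2 * w) ⊕ Fin (3 * w)) ↪ Fin n)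
    (α : Fin (3 * w) × Bool ↪ Fin m)
    (e : (Fin (3 * w) × Bool) ⊕ Fin n ≃ Fin m) (he : ∀ pc, e (Sum.inl pc) = α pc)
    (π : Slot w ≃ Fin (3 * w) × Bool) (t : Slot w → ZMod 2) (h : Gp w) (x : Nm m q k) :
    bits (inst hq κ ρR e π (t + BB π h)) (prm hq κ α h x) = bits (inst hq κ ρR e π t) x := by
  rcases x with ⟨i, s, a, s'⟩ | ⟨i, s⟩ | ⟨i, s⟩
  · show decide (trI hq κ ρR π (t + BB π h) (e.symm i) (stPerm hq α (fun pc => h.1 pc.1) i s)
        ((blockPerm h.2 h.1).viaEmbedding κ a) = stPerm hq α (fun pc => h.1 pc.1) i s') =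
      decide (trI hq κ ρR π t (e.symm i) s a = s')
    have key : trI hq κ ρR π (t + BB π h) (e.symm i) (stPerm hq α (fun pc => h.1 pc.1) i s)
        ((blockPerm h.2 h.1).viaEmbedding κ a) = stPerm hq α (fun pc => h.1 pc.1) i
        (trI hq κ ρR π t (e.symm i) s a) := by
      rcases hi : e.symm i with pc | y
      · rw [(stPerm_e hq α e he _ i).1 pc hi]
        exact trC_equi hq κ π t pc h s a
      · rw [(stPerm_e hq α e he _ i).2 y hi]
        show (match dr ρR y with
          | some z => trR hq κ z s ((blockPerm h.2 h.1).viaEmbedding κ a)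
          | none => s) = (match dr ρR y with
          | some z => trR hq κ z s a
          | none => s)
        rcases dr ρR y with _ | z
        · rfl
        · exact trR_equi hq κ z h.2 h.1 s a
    rw [key]
    simp
  · show decide (code hq St.start = stPerm hq α (fun pc => h.1 pc.1) i s) = decide (code hq St.start = s)
    have key : stPerm hq α (fun pc => h.1 pc.1) i (code hq St.start) = code hq St.start := by
      rcases hi : e.symm i with pc | y
      · rw [(stPerm_e hq α e he _ i).1 pc hi, swapIf_code]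
        rfl
      · rw [(stPerm_e hq α e he _ i).2 y hi]
        rfl
    conv_lhs => rw [← key]
    simp
  · show acI hq ρR (e.symm i) (stPerm hq α (fun pc => h.1 pc.1) i s) = acI hq ρR (e.symm i) s
    rcases hi : e.symm i with pc | y
    · rw [(stPerm_e hq α e he _ i).1 pc hi]
      show (!decide (swapIf hq (h.1 pc.1) s = code hq St.dead)) = !decide (s = code hq St.dead)
      have key : swapIf hq (h.1 pc.1) (code hq St.dead) = code hq St.dead := by
        rw [swapIf_code]
        rfl
      conv_lhs => rw [← key]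
      simp
    · rw [(stPerm_e hq α e he _ i).2 y hi]
      rfl

/-- the parameter on which an input bit depends -/
def dep (e : (Fin (3 * w) × Bool) ⊕ Fin n ≃ Fin m) (π : Slot w ≃ Fin (3 * w) × Bool) :
    Nm m q k → Option (Slot w)
  | Sum.inl (i, _, _, _) => match e.symm i with
    | Sum.inl pc => some (π.symm pc)
    | Sum.inr _ => none
  | _ => none

lemma dep_spec (hq : 4 ≤ q) (κ : Lt w ↪ Fin k) (ρR : (Fin (2 * w) ⊕ Fin (3 * w)) ↪ Fin n)
    (e : (Fin (3 * w) × Bool) ⊕ Fin n ≃ Fin m) (π : Slot w ≃ Fin (3 * w) × Bool) (x : Nm m q k)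
    (t t' : Slot w → ZMod 2) (h : ∀ s, dep (q := q) (k := k) e π x = some s → t s = t' s) :
    bits (inst hq κ ρR e π t) x = bits (inst hq κ ρR e π t') x := by
  rcases x with ⟨i, s, a, s'⟩ | ⟨i, s⟩ | ⟨i, s⟩
  · show decide (trI hq κ ρR π t (e.symm i) s a = s') = decide (trI hq κ ρR π t' (e.symm i) s a = s')
    have key : trI hq κ ρR π t (e.symm i) s a = trI hq κ ρR π t' (e.symm i) s a := by
      rcases hi : e.symm i with pc | y
      · have h1 : t (π.symm pc) = t' (π.symm pc) := by
          apply h
          show (match e.symm i with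
            | Sum.inl pc => some (π.symm pc)
            | Sum.inr _ => none) = _
          rw [hi]
        show trC hq κ π t pc s a = trC hq κ π t' pc s a
        have h2 : lv π t pc = lv π t' pc := by
          funext l
          rcases l with ⟨u, x⟩ | ⟨p, b⟩
          · show (if (π.symm pc).1 = u then some (lab (π.symm pc).2 x + t (π.symm pc)) else none) =
              (if (π.symm pc).1 = u then some (lab (π.symm pc).2 x + t' (π.symm pc)) else none)
            rw [h1]
          · rfl
        unfold trC
        rw [h2]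
      · rfl
    rw [key]
  · rfl
  · rfl

/-- the family -/
noncomputable def fam {K : Type} (enc : Bool → K) (hq : 4 ≤ q) (κ : Lt w ↪ Fin k)
    (ρR : (Fin (2 * w) ⊕ Fin (3 * w)) ↪ Fin n) (α : Fin (3 * w) × Bool ↪ Fin m)
    (e : (Fin (3 * w) × Bool) ⊕ Fin n ≃ Fin m) (he : ∀ pc, e (Sum.inl pc) = α pc)
    (π : Slot w ≃ Fin (3 * w) × Bool) : Setup (Nm m q k) K (Slot w) (Gp w) :=
  mkSetup (BB π) (prm hq κ α)
    (by
      unfold prm
      have h1 : (fun pc : Fin (3 * w) × Bool => (0 : Gp w).1 pc.1) = 0 := rfl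
      have h2 : (stPerm hq α (0 : Fin (3 * w) × Bool → ZMod 2)) = fun _ : Fin m => 1 := by
        funext i
        exact stPerm_zero hq α i
      rw [h1, h2]
      show nm ((blockPerm (0 : Fin (2 * w) → Four) (0 : Fin (3 * w) → ZMod 2)).viaEmbedding κ) _ = 1
      rw [via_zero, nm_one])
    (by
      intro h h'
      unfold prm
      rw [← nm_mul]
      congr 1
      · exact via_add κ h.2 h'.2 h.1 h'.1
      · funext i
        exact stPerm_add hq α (fun pc => h.1 pc.1) (fun pc => h'.1 pc.1) i)
    (fun t x => enc (bits (inst hq κ ρR e π t) x))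
    (fun t h x => congrArg enc (inst_equi hq κ ρR α e he π t h x))
    (dep e π)
    (fun x t t' h => congrArg enc (dep_spec hq κ ρR e π x t t' h))

end H522R3.Au
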