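import Pool.Agent.H522R3.Au.Odd

set_option autoImplicit false
set_option linter.unusedSectionVars false

/-!
Families of inputs each coordinate of which depends on at most one parameter.
-/

namespace H522R3.Au

open Finset Pool.Agent.H30R2.PS

variable {I K S G : Type} [AddCommGroup G] [Module (ZMod 2) G]

/-- construction of a `Setup` -/
def mkSetup (B : G →ₗ[ZMod 2] (S → ZMod 2)) (perm : G → Equiv.Perm I) (perm_zero : perm 0 = 1)
    (perm_add : ∀ h h', perm (h + h') = perm h * perm h') (x : (S → ZMod 2) → I → K)
    (equi : ∀ t h i, x (t + B h) (perm h i) = x t i) (dep : I → Option S)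
    (hdep : ∀ i t t', (∀ s, dep i = some s → t s = t' s) → x t i = x t' i) : Setup I K S G where
  B := B
  perm := perm
  perm_zero := perm_zero
  perm_add := perm_add
  x := x
  equi := equi
  loc i := {s | dep i = some s ∧ ∃ t t', x t i ≠ x t' i}
  loc_x i t e h := by
    by_cases hex : ∃ t t', x t i ≠ x t' i
    · refine hdep i _ _ fun s hs => ?_
      rw [Pi.add_apply, h s ⟨hs, hex⟩, add_zero]
    · push Not at hex
      exact hex _ _
  loc_perm i h hfix s hs := by
    obtain ⟨hd, t, t', hne⟩ := hs
    by_contra hB
    have hz : ∀ c : ZMod 2, c ≠ 0 → c = 1 := by decide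
    have hz2 : ∀ c d : ZMod 2, c ≠ d → c + 1 = d := by decide
    have hB1 := hz _ hB
    have hts : t s ≠ t' s := by
      intro heq
      apply hne
      refine hdep i _ _ fun s' hs' => ?_
      rw [hd] at hs'
      rw [← Option.some.inj hs']
      exact heq
    have h1 := equi t h i
    rw [hfix] at h1
    apply hne
    rw [← h1]
    refine hdep i _ _ fun s' hs' => ?_
    rw [hd] at hs'
    rw [← Option.some.inj hs', Pi.add_apply, hB1]
    exact hz2 _ _ hts

end H522R3.Au
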