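import Pool.Agent.H30R2.PS.Bad

set_option autoImplicit false
set_option linter.unusedSectionVars false

/-!
The union bound over random cubic structures, for an arbitrary family of inputs on which the group `Gp w` acts.
-/

namespace H522R3.Au

open Finset Pool.Agent.H30R2.PS

variable {I K Gt : Type} [Fintype Gt] {w : ℕ}

lemma stab_eq {S G : Type} [AddCommGroup G] [Module (ZMod 2) G] (Z Z' : Setup I K S G)
    (h : Z.perm = Z'.perm) (N : Net I K Gt) (g : Gt) : stab Z N g = stab Z' N g := by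
  ext a
  rw [mem_stab, mem_stab, h]

open Classical in
theorem exists_good (perm : Gp w → Equiv.Perm I)
    (Z : (Slot w ≃ Fin (3 * w) × Bool) → Setup I K (Slot w) (Gp w))
    (hB : ∀ π, (Z π).B = BB π) (hperm : ∀ π, (Z π).perm = perm)
    (N : Net I K Gt) (hN : ∀ h : Gp w, ∃ φ, N.IsAut (perm h) φ)
    (τ : ℕ) (hτ : 3200 * τ ≤ w) (hs : Fintype.card Gt < 2 ^ τ) :
    ∃ π : Slot w ≃ Fin (3 * w) × Bool, Good (Z π) N τ := by
  by_contra hcon
  rw [not_exists] at hcon
  have hcardS : Fintype.card (Slot w) = Fintype.card (Fin (3 * w) × Bool) := by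
    rw [Fintype.card_prod, Fintype.card_prod, Fintype.card_fin, Fintype.card_fin,
      Fintype.card_fin, Fintype.card_bool]
    ring
  let π0 : Slot w ≃ Fin (3 * w) × Bool := Fintype.equivOfCardEq hcardS
  let st : Gt → Submodule (ZMod 2) (Gp w) := stab (Z π0) N
  have hst : ∀ π g, stab (Z π) N g = st g := fun π g =>
    stab_eq _ _ ((hperm π).trans (hperm π0).symm) N g
  set S : Finset (Submodule (ZMod 2) (Gp w)) := univ.image st with hS
  set P : ℝ := ((Fintype.card (Slot w ≃ Fin (3 * w) × Bool) : ℕ) : ℝ) with hP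
  have hP0 : 0 < P := by
    have : Nonempty (Slot w ≃ Fin (3 * w) × Bool) := ⟨π0⟩
    rw [hP]
    exact_mod_cast Fintype.card_pos
  set BH : Submodule (ZMod 2) (Gp w) → Finset (Slot w ≃ Fin (3 * w) × Bool) := fun H =>
    univ.filter fun π : Slot w ≃ Fin (3 * w) × Bool =>
      ∃ l : Slot w → ZMod 2, τ < wt l ∧ wt l ≤ 2 * τ ∧ ∀ h ∈ H, dot l (BB π h) = 0 with hBH
  set HP : Submodule (ZMod 2) (Gp w) → Finset (Gp w) := fun H =>
    univ.filter fun z : Gp w => ∀ h ∈ H, pair h z = 0 with hHP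
  have hcov : (univ : Finset (Slot w ≃ Fin (3 * w) × Bool)) ⊆ S.biUnion BH := by
    intro π _
    have h1 := hcon π
    unfold Good at h1
    rw [not_forall] at h1
    obtain ⟨g, h1⟩ := h1
    rw [not_forall] at h1
    obtain ⟨l, h1⟩ := h1
    rw [Classical.not_imp] at h1
    obtain ⟨h2, h1⟩ := h1
    rw [Classical.not_imp] at h1
    obtain ⟨h3, h1⟩ := h1
    rw [Finset.mem_biUnion]
    refine ⟨st g, Finset.mem_image_of_mem _ (mem_univ g), ?_⟩
    rw [hBH]
    refine Finset.mem_filter.mpr ⟨mem_univ _, l, h2, h3, fun h hh => ?_⟩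
    by_contra hne
    refine h1 ⟨h, ?_, ?_⟩
    · rw [hst]; exact hh
    · rw [hB]; exact hne
  have hSsum : ∑ H ∈ S, ((HP H).card : ℝ) ≤ Fintype.card Gt := by
    have h1 : (Fintype.card Gt : ℝ) = ∑ H ∈ S,
        ((univ.filter fun g => st g = H).card : ℝ) := by
      rw [← Nat.cast_sum, ← Finset.card_univ]
      congr 1
      exact Finset.card_eq_sum_card_image st univ
    rw [h1]
    refine Finset.sum_le_sum fun H hH => ?_
    rw [hS, Finset.mem_image] at hH
    obtain ⟨g, _, rfl⟩ := hH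
    have h2 := perp_card (st g)
    have h3 := orbit_le (Z π0) N (by rw [hperm]; exact hN) g
    have hpos : 0 < Nat.card (st g) := Nat.card_pos
    have h4 : (HP (st g)).card * Nat.card (st g) ≤
        (univ.filter fun g' => st g' = st g).card * Nat.card (st g) := by
      rw [hHP]
      refine h2.le.trans (h3.trans (le_of_eq ?_))
      exact mul_comm _ _
    have h5 := Nat.le_of_mul_le_mul_right h4 hpos
    exact_mod_cast h5
  have hfin : P ≤ Fintype.card Gt * (P * (1 / 2) ^ τ) := by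
    calc P = ((univ : Finset (Slot w ≃ Fin (3 * w) × Bool)).card : ℝ) := by
          rw [Finset.card_univ]
      _ ≤ ((S.biUnion BH).card : ℝ) := by exact_mod_cast Finset.card_le_card hcov
      _ ≤ ∑ H ∈ S, ((BH H).card : ℝ) := by exact_mod_cast Finset.card_biUnion_le
      _ ≤ ∑ H ∈ S, ((HP H).card : ℝ) * (P * (1 / 2) ^ τ) :=
          Finset.sum_le_sum fun H _ => bad_one H τ hτ
      _ = (∑ H ∈ S, ((HP H).card : ℝ)) * (P * (1 / 2) ^ τ) := (Finset.sum_mul _ _ _).symm
      _ ≤ _ := mul_le_mul_of_nonneg_right hSsum (by positivity)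
  have h6 : (Fintype.card Gt : ℝ) < 2 ^ τ := by exact_mod_cast hs
  have h7 : (Fintype.card Gt : ℝ) * (P * (1 / 2) ^ τ) < 2 ^ τ * (P * (1 / 2) ^ τ) :=
    mul_lt_mul_of_pos_right h6 (by positivity)
  have h8 : (2 : ℝ) ^ τ * (P * (1 / 2) ^ τ) = P := by
    have h9 : (2 : ℝ) ^ τ * (1 / 2) ^ τ = 1 := by
      rw [← mul_pow]
      norm_num
    calc (2 : ℝ) ^ τ * (P * (1 / 2) ^ τ) = P * (2 ^ τ * (1 / 2) ^ τ) := by ring
      _ = P := by rw [h9, mul_one]
  linarith

/-- An input of odd parity which the network does not distinguish from the input with parameters zero. -/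
theorem exists_odd (perm : Gp w → Equiv.Perm I)
    (Z : (Slot w ≃ Fin (3 * w) × Bool) → Setup I K (Slot w) (Gp w))
    (hB : ∀ π, (Z π).B = BB π) (hperm : ∀ π, (Z π).perm = perm)
    (N : Net I K Gt) (hN : ∀ h : Gp w, ∃ φ, N.IsAut (perm h) φ)
    (hs : Fintype.card Gt < 2 ^ (w / 3200)) :
    ∃ (π : Slot w ≃ Fin (3 * w) × Bool) (e : Slot w → ZMod 2), ∑ s, e s = 1 ∧
      N.eval ((Z π).x e) = N.eval ((Z π).x 0) := by
  classical
  rcases Nat.lt_or_ge w 3200 with hw | hw
  · rw [Nat.div_eq_of_lt hw, pow_zero] at hs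
    have : Nonempty Gt := ⟨N.out⟩
    have := Fintype.card_pos (α := Gt)
    omega
  set τ : ℕ := w / 3200 with hτ
  have hτ1 : 1 ≤ τ := by omega
  have hτw : 3200 * τ ≤ w := Nat.mul_div_le w 3200
  obtain ⟨π, hG⟩ := exists_good perm Z hB hperm N hN τ hτw hs
  have hwt : τ < wt (fun _ : Slot w => (1 : ZMod 2)) := by
    have h3 : wt (fun _ : Slot w => (1 : ZMod 2)) = 6 * w := by
      unfold wt
      rw [Finset.filter_true_of_mem (fun _ _ => (by decide : (1 : ZMod 2) ≠ 0)),
        Finset.card_univ, Fintype.card_prod, Fintype.card_fin, Fintype.card_fin]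
      ring
    rw [h3]
    omega
  obtain ⟨e, he, hshift⟩ := eval_shift hG hτ1 _ hwt
  refine ⟨π, e, ?_, ?_⟩
  · rw [← he]
    unfold dot
    exact Finset.sum_congr rfl fun s _ => (one_mul _).symm
  · have h1 := hshift 0
    rwa [zero_add] at h1

/-- the translations have even parity -/
lemma sum_BB (π : Slot w ≃ Fin (3 * w) × Bool) (h : Gp w) : ∑ s, BB π h s = 0 := by
  have h1 := dot_BB π (fun _ => 1) h
  unfold dot at h1
  rw [Finset.sum_congr rfl (fun s _ => (one_mul (BB π h s)).symm), h1]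
  have h2 : ∀ c : ZMod 2, c + c = 0 := by decide
  unfold pair cc dd
  have e1 : ∀ p : Fin (3 * w), h.1 p * ((1 : ZMod 2) + 1) = 0 := by
    intro p
    rw [h2, mul_zero]
  have e2 : ∀ u : Fin (2 * w), (h.2 u).1 * ((1 : ZMod 2) + 1) + (h.2 u).2 * ((1 : ZMod 2) + 1) = 0 := by
    intro u
    rw [h2, mul_zero, mul_zero, add_zero]
  show ∑ p, h.1 p * ((1 : ZMod 2) + 1) + ∑ u, ((h.2 u).1 * ((1 : ZMod 2) + 1) +
    (h.2 u).2 * ((1 : ZMod 2) + 1)) = 0
  rw [Finset.sum_eq_zero (fun p _ => e1 p), Finset.sum_eq_zero (fun u _ => e2 u), add_zero]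

end H522R3.Au
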