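import Pool.Agent.H522R3.Au.Inst

set_option autoImplicit false
set_option linter.unusedSectionVars false

/-!
Which of the lists of automata have a common word, and the lower bound.
-/

namespace H522R3.Au

open Finset Pool.Agent.H30R2.PS

variable {m q k w n : ℕ}

/-- the value of a letter -/
noncomputable def fv (κ : Lt w ↪ Fin k) (π : Slot w ≃ Fin (3 * w) × Bool)
    (t : Slot w → ZMod 2) (pc : Fin (3 * w) × Bool) (a : Fin k) : Option (ZMod 2) :=
  (dl κ a).bind (lv π t pc)

lemma trC_code (hq : 4 ≤ q) (κ : Lt w ↪ Fin k) (π : Slot w ≃ Fin (3 * w) × Bool)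
    (t : Slot w → ZMod 2) (pc : Fin (3 * w) × Bool) (st : St) (a : Fin k) :
    trC hq κ π t pc (code hq st) a = code hq (stepC (fv κ π t pc a) st) := by
  unfold trC fv
  rw [decode_code]
  rcases ha : dl κ a with _ | l
  · rfl
  · rfl

lemma run_code (hq : 4 ≤ q) (κ : Lt w ↪ Fin k) (π : Slot w ≃ Fin (3 * w) × Bool)
    (t : Slot w → ZMod 2) (pc : Fin (3 * w) × Bool) (wd : List (Fin k)) (st : St) :
    wd.foldl (trC hq κ π t pc) (code hq st) =
      code hq (wd.foldl (fun st a => stepC (fv κ π t pc a) st) st) := by
  induction wd generalizing st with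
  | nil => rfl
  | cons a wd ih =>
    rw [List.foldl_cons, List.foldl_cons, trC_code, ih]

lemma fold_dead (f : Fin k → Option (ZMod 2)) (wd : List (Fin k)) :
    wd.foldl (fun st a => stepC (f a) st) St.dead = St.dead := by
  induction wd with
  | nil => rfl
  | cons a wd ih =>
    rw [List.foldl_cons]
    have : stepC (f a) St.dead = St.dead := by
      rcases f a with _ | v <;> rfl
    rw [this, ih]

lemma fold_val (f : Fin k → Option (ZMod 2)) (b : ZMod 2) (wd : List (Fin k)) :
    wd.foldl (fun st a => stepC (f a) st) (St.val b) ≠ St.dead ↔ ∀ a ∈ wd, ∀ v, f a = some v → v = b := by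
  induction wd with
  | nil => simp
  | cons a wd ih =>
    rw [List.foldl_cons]
    rcases ha : f a with _ | v
    · show List.foldl _ (St.val b) wd ≠ St.dead ↔ _
      rw [ih]
      constructor
      · intro h a' ha' v hv
        rcases List.mem_cons.mp ha' with rfl | ha'
        · rw [ha] at hv
          exact absurd hv (by simp)
        · exact h a' ha' v hv
      · intro h a' ha' v hv
        exact h a' (List.mem_cons_of_mem _ ha') v hv
    · by_cases hv : b = v
      · have h1 : stepC (some v) (St.val b) = St.val b := if_pos hv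
        rw [h1, ih]
        constructor
        · intro h a' ha' v' hv'
          rcases List.mem_cons.mp ha' with rfl | ha'
          · rw [ha] at hv'
            rw [hv]
            exact (Option.some.inj hv').symm
          · exact h a' ha' v' hv'
        · intro h a' ha' v' hv'
          exact h a' (List.mem_cons_of_mem _ ha') v' hv'
      · have h1 : stepC (some v) (St.val b) = St.dead := if_neg hv
        rw [h1, fold_dead]
        constructor
        · intro h
          exact absurd rfl h
        · intro h
          exact absurd (h a List.mem_cons_self v ha).symm hv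

lemma fold_start (f : Fin k → Option (ZMod 2)) (wd : List (Fin k)) :
    wd.foldl (fun st a => stepC (f a) st) St.start ≠ St.dead ↔
      ∃ b, ∀ a ∈ wd, ∀ v, f a = some v → v = b := by
  induction wd with
  | nil => simp
  | cons a wd ih =>
    rw [List.foldl_cons]
    rcases ha : f a with _ | v
    · show List.foldl _ St.start wd ≠ St.dead ↔ _
      rw [ih]
      constructor
      · rintro ⟨b, h⟩
        refine ⟨b, fun a' ha' v hv => ?_⟩
        rcases List.mem_cons.mp ha' with rfl | ha'
        · rw [ha] at hv
          exact absurd hv (by simp)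
        · exact h a' ha' v hv
      · rintro ⟨b, h⟩
        exact ⟨b, fun a' ha' v hv => h a' (List.mem_cons_of_mem _ ha') v hv⟩
    · show List.foldl _ (St.val v) wd ≠ St.dead ↔ _
      rw [fold_val]
      constructor
      · intro h
        refine ⟨v, fun a' ha' v' hv' => ?_⟩
        rcases List.mem_cons.mp ha' with rfl | ha'
        · rw [ha] at hv'
          exact (Option.some.inj hv').symm
        · exact h a' ha' v' hv'
      · rintro ⟨b, h⟩ a' ha' v' hv'
        have h1 := h a List.mem_cons_self v ha
        rw [h1]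
        exact h a' (List.mem_cons_of_mem _ ha') v' hv'

lemma run_block (hq : 4 ≤ q) (κ : Lt w ↪ Fin k) (z : Fin (2 * w) ⊕ Fin (3 * w)) (wd : List (Fin k))
    (s : Fin q) (hs : s ≠ code hq (St.val 0)) :
    wd.foldl (trR hq κ z) s = code hq (St.val 0) ↔ ∃ a ∈ wd, ∃ l, dl κ a = some l ∧ inBlock z l = true := by
  have h0 : ∀ wd : List (Fin k), wd.foldl (trR hq κ z) (code hq (St.val 0)) = code hq (St.val 0) := by
    intro wd
    induction wd with
    | nil => rfl
    | cons a wd ih =>
      rw [List.foldl_cons]
      have h1 : trR hq κ z (code hq (St.val 0)) a = code hq (St.val 0) := by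
        unfold trR
        rcases dl κ a with _ | l
        · rfl
        · show (if inBlock z l = true then code hq (St.val 0) else code hq (St.val 0)) = _
          rw [ite_self]
      rw [h1, ih]
  induction wd with
  | nil =>
    constructor
    · intro h
      exact absurd h hs
    · rintro ⟨a, ha, _⟩
      exact absurd ha (by simp)
  | cons a wd ih =>
    rw [List.foldl_cons]
    by_cases ha : ∃ l, dl κ a = some l ∧ inBlock z l = true
    · obtain ⟨l, hl, hb⟩ := ha
      have h1 : trR hq κ z s a = code hq (St.val 0) := by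
        unfold trR
        rw [hl]
        exact if_pos hb
      rw [h1, h0]
      exact ⟨fun _ => ⟨a, List.mem_cons_self, l, hl, hb⟩, fun _ => rfl⟩
    · have h1 : trR hq κ z s a = s := by
        unfold trR
        rcases hl : dl κ a with _ | l
        · rfl
        · exact if_neg (fun hb => ha ⟨l, hl, hb⟩)
      rw [h1]
      refine Iff.trans ih ?_
      constructor
      · rintro ⟨a', ha', h⟩
        exact ⟨a', List.mem_cons_of_mem _ ha', h⟩
      · rintro ⟨a', ha', h⟩
        rcases List.mem_cons.mp ha' with rfl | ha'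
        · exact absurd h ha
        · exact ⟨a', ha', h⟩

/-- when the list of automata has a common word -/
lemma common_iff (hq : 4 ≤ q) (κ : Lt w ↪ Fin k) (ρR : (Fin (2 * w) ⊕ Fin (3 * w)) ↪ Fin n)
    (e : (Fin (3 * w) × Bool) ⊕ Fin n ≃ Fin m) (π : Slot w ≃ Fin (3 * w) × Bool)
    (t : Slot w → ZMod 2) (wd : List (Fin k)) :
    (∀ i, (inst hq κ ρR e π t).acc i ((inst hq κ ρR e π t).run i wd) = true) ↔
      (∀ pc, ∃ b, ∀ a ∈ wd, ∀ v, fv κ π t pc a = some v → v = b) ∧
      (∀ y z, dr ρR y = some z → ∃ a ∈ wd, ∃ l, dl κ a = some l ∧ inBlock z l = true) := by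
  have hne : code hq St.start ≠ code hq (St.val 0) := fun h => by
    have := code_inj hq h
    exact absurd this (by simp)
  have hC : ∀ pc : Fin (3 * w) × Bool, (inst hq κ ρR e π t).acc (e (Sum.inl pc))
      ((inst hq κ ρR e π t).run (e (Sum.inl pc)) wd) = true ↔
      ∃ b, ∀ a ∈ wd, ∀ v, fv κ π t pc a = some v → v = b := by
    intro pc
    rw [← fold_start]
    show acI hq ρR (e.symm (e (Sum.inl pc))) (wd.foldl (trI hq κ ρR π t (e.symm (e (Sum.inl pc))))
      (code hq St.start)) = true ↔ _
    rw [Equiv.symm_apply_apply]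
    show (!decide (wd.foldl (trC hq κ π t pc) (code hq St.start) = code hq St.dead)) = true ↔ _
    rw [run_code, Bool.not_eq_true', decide_eq_false_iff_not]
    constructor
    · intro h h'
      exact h (congrArg (code hq) h')
    · intro h h'
      exact h (code_inj hq h')
  have hR : ∀ y : Fin n, (inst hq κ ρR e π t).acc (e (Sum.inr y))
      ((inst hq κ ρR e π t).run (e (Sum.inr y)) wd) = true ↔
      ∀ z, dr ρR y = some z → ∃ a ∈ wd, ∃ l, dl κ a = some l ∧ inBlock z l = true := by
    intro y
    show acI hq ρR (e.symm (e (Sum.inr y))) (wd.foldl (trI hq κ ρR π t (e.symm (e (Sum.inr y))))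
      (code hq St.start)) = true ↔ _
    rw [Equiv.symm_apply_apply]
    rcases hy : dr ρR y with _ | z
    · have h1 : ∀ s, acI hq ρR (Sum.inr y) s = true := by
        intro s
        simp only [acI, hy]
      constructor
      · intro _ z hz
        exact absurd hz (by simp)
      · intro _
        exact h1 _
    · have h1 : ∀ s, acI hq ρR (Sum.inr y) s = decide (s = code hq (St.val 0)) := by
        intro s
        simp only [acI, hy]
      have h2 : trI hq κ ρR π t (Sum.inr y) = trR hq κ z := by
        funext s a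
        simp only [trI, hy]
      rw [h1, h2, decide_eq_true_iff, run_block hq κ z wd _ hne]
      constructor
      · intro h z' hz'
        rw [← Option.some.inj hz']
        exact h
      · intro h
        exact h z rfl
  constructor
  · intro h
    exact ⟨fun pc => (hC pc).mp (h _), fun y => (hR y).mp (h _)⟩
  · rintro ⟨h1, h2⟩ i
    obtain ⟨j, rfl⟩ := e.surjective i
    rcases j with pc | y
    · exact (hC pc).mpr (h1 pc)
    · exact (hR y).mpr (h2 y)

lemma dr_some (ρR : (Fin (2 * w) ⊕ Fin (3 * w)) ↪ Fin n) (y : Fin n) (z : Fin (2 * w) ⊕ Fin (3 * w))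
    (h : dr ρR y = some z) : ρR z = y := by
  unfold dr at h
  split_ifs at h with h1
  rw [← Option.some.inj h]
  exact h1.choose_spec

/-- the list with parameters zero has a common word -/
lemma common_zero (hq : 4 ≤ q) (κ : Lt w ↪ Fin k) (ρR : (Fin (2 * w) ⊕ Fin (3 * w)) ↪ Fin n)
    (e : (Fin (3 * w) × Bool) ⊕ Fin n ≃ Fin m) (π : Slot w ≃ Fin (3 * w) × Bool) :
    (inst hq κ ρR e π 0).HasCommonWord := by
  refine ⟨(List.finRange (2 * w)).map (fun u => κ (Sum.inl (u, 0))) ++
    (List.finRange (3 * w)).map (fun p => κ (Sum.inr (p, 0))), ?_⟩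
  rw [common_iff]
  constructor
  · intro pc
    refine ⟨0, fun a ha v hv => ?_⟩
    rcases List.mem_append.mp ha with ha | ha
    · obtain ⟨u, _, rfl⟩ := List.mem_map.mp ha
      unfold fv at hv
      rw [dl_apply, Option.bind_some] at hv
      have hv' : (if (π.symm pc).1 = u then some (lab (π.symm pc).2 0 + (0 : Slot w → ZMod 2) (π.symm pc))
        else none) = some v := hv
      split_ifs at hv' with h1
      rw [← Option.some.inj hv', lab_zero]
      rfl
    · obtain ⟨p, _, rfl⟩ := List.mem_map.mp ha
      unfold fv at hv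
      rw [dl_apply, Option.bind_some] at hv
      have hv' : (if pc.1 = p then some (0 : ZMod 2) else none) = some v := hv
      split_ifs at hv' with h1
      exact (Option.some.inj hv').symm
  · intro y z _
    rcases z with u | p
    · refine ⟨κ (Sum.inl (u, 0)), List.mem_append.mpr (Or.inl (List.mem_map.mpr ⟨u, List.mem_finRange u, rfl⟩)),
        Sum.inl (u, 0), dl_apply κ _, ?_⟩
      show decide (u = u) = true
      simp
    · refine ⟨κ (Sum.inr (p, 0)), List.mem_append.mpr (Or.inr (List.mem_map.mpr ⟨p, List.mem_finRange p, rfl⟩)),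
        Sum.inr (p, 0), dl_apply κ _, ?_⟩
      show decide (p = p) = true
      simp

/-- if the list has a common word then the parameters have even parity -/
lemma common_even (hq : 4 ≤ q) (κ : Lt w ↪ Fin k) (ρR : (Fin (2 * w) ⊕ Fin (3 * w)) ↪ Fin n)
    (e : (Fin (3 * w) × Bool) ⊕ Fin n ≃ Fin m) (π : Slot w ≃ Fin (3 * w) × Bool)
    (t : Slot w → ZMod 2) (h : (inst hq κ ρR e π t).HasCommonWord) : ∑ s, t s = 0 := by
  obtain ⟨wd, h⟩ := h
  rw [common_iff] at h
  obtain ⟨h1, h2⟩ := h
  have hU : ∀ u : Fin (2 * w), ∃ x : Four, κ (Sum.inl (u, x)) ∈ wd := by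
    intro u
    obtain ⟨a, ha, l, hl, hb⟩ := h2 (ρR (Sum.inl u)) (Sum.inl u) (dr_apply ρR _)
    have hal : κ l = a := by
      unfold dl at hl
      split_ifs at hl with h3
      rw [← Option.some.inj hl]
      exact h3.choose_spec
    rcases l with ⟨u', x⟩ | ⟨p', b⟩
    · have hb' : decide (u' = u) = true := hb
      rw [decide_eq_true_iff] at hb'
      subst hb'
      exact ⟨x, hal ▸ ha⟩
    · exact absurd hb (by simp [inBlock])
  have hP : ∀ p : Fin (3 * w), ∃ b : ZMod 2, κ (Sum.inr (p, b)) ∈ wd := by
    intro p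
    obtain ⟨a, ha, l, hl, hb⟩ := h2 (ρR (Sum.inr p)) (Sum.inr p) (dr_apply ρR _)
    have hal : κ l = a := by
      unfold dl at hl
      split_ifs at hl with h3
      rw [← Option.some.inj hl]
      exact h3.choose_spec
    rcases l with ⟨u', x⟩ | ⟨p', b⟩
    · exact absurd hb (by simp [inBlock])
    · have hb' : decide (p' = p) = true := hb
      rw [decide_eq_true_iff] at hb'
      subst hb'
      exact ⟨b, hal ▸ ha⟩
  choose x hx using hU
  choose b hb using hP
  have hz2 : ∀ c d e : ZMod 2, c = e → d + c = d + e := by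
    intro c d e h; rw [h]
  have key : BB π (b, x) = t := by
    funext s
    rw [BB_apply]
    obtain ⟨v0, hv0⟩ := h1 (π s)
    have e1 : fv κ π t (π s) (κ (Sum.inl (s.1, x s.1))) = some (lab s.2 (x s.1) + t s) := by
      unfold fv
      rw [dl_apply, Option.bind_some]
      show (if (π.symm (π s)).1 = s.1 then some (lab (π.symm (π s)).2 (x s.1) + t (π.symm (π s)))
        else none) = _
      rw [Equiv.symm_apply_apply, if_pos rfl]
    have e2 : fv κ π t (π s) (κ (Sum.inr ((π s).1, b (π s).1))) = some (b (π s).1) := by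
      unfold fv
      rw [dl_apply, Option.bind_some]
      exact if_pos rfl
    have f1 := hv0 _ (hx s.1) _ e1
    have f2 := hv0 _ (hb (π s).1) _ e2
    show b (π s).1 + lab s.2 (x s.1) = t s
    rw [f2, ← f1]
    have h3 : ∀ a c : ZMod 2, a + c + a = c := by decide
    exact h3 _ _
  rw [← key]
  exact sum_BB π (b, x)

lemma exists_ext {A : Type} [Fintype A] (α : A ↪ Fin m) :
    ∃ e : A ⊕ Fin (m - Fintype.card A) ≃ Fin m, ∀ x, e (Sum.inl x) = α x := by
  classical
  have hc : Fintype.card ((Set.range α)ᶜ : Set (Fin m)) = m - Fintype.card A := by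
    rw [Fintype.card_compl_set, Fintype.card_fin, Set.card_range_of_injective α.injective]
  let e2 : ((Set.range α)ᶜ : Set (Fin m)) ≃ Fin (m - Fintype.card A) :=
    Fintype.equivFinOfCardEq hc
  refine ⟨((Equiv.ofInjective α α.injective).sumCongr e2.symm).trans (Equiv.Set.sumCompl (Set.range α)), ?_⟩
  intro x
  rfl

theorem lower {K Gt : Type} [Fintype Gt] (enc : Bool → K) (henc : enc true ≠ enc false) (hq : 4 ≤ q)
    (hm : 11 * w ≤ m) (κ : Lt w ↪ Fin k) (α : Fin (3 * w) × Bool ↪ Fin m)
    (N : Net (Nm m q k) K Gt) (hN : Decides enc N)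
    (hsym : ∀ (U : Fin (2 * w) → Four) (a : Fin (3 * w) → ZMod 2),
      SymUnder N ((blockPerm U a).viaEmbedding κ) (stPerm hq α (fun pc => a pc.1))) :
    2 ^ (w / 3200) ≤ Fintype.card Gt := by
  by_contra hcon
  rw [not_le] at hcon
  obtain ⟨e, he⟩ := exists_ext α
  have hcard : Fintype.card (Fin (2 * w) ⊕ Fin (3 * w)) ≤
      Fintype.card (Fin (m - Fintype.card (Fin (3 * w) × Bool))) := by
    rw [Fintype.card_sum, Fintype.card_fin, Fintype.card_fin, Fintype.card_fin, Fintype.card_prod,
      Fintype.card_fin, Fintype.card_bool]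
    omega
  obtain ⟨ρR⟩ := Function.Embedding.nonempty_of_card_le hcard
  obtain ⟨π, t, ht, hev⟩ := exists_odd (prm hq κ α) (fun π => fam enc hq κ ρR α e he π)
    (fun _ => rfl) (fun _ => rfl) N (fun h => hsym h.2 h.1) hcon
  have h1 : ¬ (inst hq κ ρR e π t).HasCommonWord := by
    intro h
    rw [common_even hq κ ρR e π t h] at ht
    exact absurd ht (by decide)
  have h2 := (hN (inst hq κ ρR e π t)).2 h1
  have h3 := (hN (inst hq κ ρR e π 0)).1 (common_zero hq κ ρR e π)
  apply henc
  rw [← h2, ← h3]
  exact hev.symm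

end H522R3.Au
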