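import Pool.Agent.H30R2.PS.Net

set_option autoImplicit false
set_option linter.unusedSectionVars false

/-!
Symmetrisation of networks, for a finite group acting on the names of the inputs.
-/

namespace H522R3.Au

open Finset Pool.Agent.H30R2.PS

variable {I K Gt D : Type} [Fintype Gt] [Group D]

open Classical in
/-- the symmetrised network: one copy of `N` for each element of `D`, and one more gate -/
noncomputable def symN (N : Net I K Gt) (act : D →* Equiv.Perm I) (Fo : Multiset K → K) :
    Net I K (Option (D × Gt)) where
  inp
    | none => none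
    | some x => (N.inp x.2).map (act x.1)
  w
    | none, _ => 0
    | some x, none => if x.2 = N.out then 1 else 0
    | some x, some y => if x.1 = y.1 then N.w x.2 y.2 else 0
  F
    | none => Fo
    | some x => N.F x.2
  out := none
  rank
    | none => N.rank N.out + 1
    | some x => N.rank x.2
  acyc := by
    intro h g hw
    rcases h with _ | h
    · exact absurd hw (lt_irrefl _)
    · rcases g with _ | g
      · have hw' : 0 < (if h.2 = N.out then 1 else 0) := hw
        split_ifs at hw' with h1
        · show N.rank h.2 < N.rank N.out + 1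
          rw [h1]; exact Nat.lt_succ_self _
        · exact absurd hw' (lt_irrefl _)
      · have hw' : 0 < (if h.1 = g.1 then N.w h.2 g.2 else 0) := hw
        split_ifs at hw' with h1
        · exact N.acyc _ _ hw'
        · exact absurd hw' (lt_irrefl _)

lemma symN_val [Fintype D] (N : Net I K Gt) (act : D →* Equiv.Perm I) (Fo : Multiset K → K)
    (x : I → K) (d : D) :
    ∀ (k : ℕ) (g : Gt), N.rank g = k →
      (symN N act Fo).val x (some (d, g)) = N.val (x ∘ act d) g := by
  classical
  intro k
  induction k using Nat.strong_induction_on with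
  | _ k ih =>
    intro g hg
    cases hi : N.inp g with
    | some i =>
      have h1 : (symN N act Fo).inp (some (d, g)) = some (act d i) := by
        show (N.inp g).map (act d) = _
        rw [hi]; rfl
      rw [Net.val_some _ _ h1, Net.val_some _ _ hi]
      rfl
    | none =>
      have h1 : (symN N act Fo).inp (some (d, g)) = none := by
        show (N.inp g).map (act d) = _
        rw [hi]; rfl
      rw [Net.val_none _ _ h1, Net.val_none _ _ hi]
      show N.F g _ = N.F g _
      congr 1
      rw [Fintype.sum_option]
      have h2 : (symN N act Fo).w none (some (d, g)) = 0 := rfl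
      rw [h2, zero_smul, zero_add, Fintype.sum_prod_type, Finset.sum_eq_single d]
      · refine Finset.sum_congr rfl fun h _ => ?_
        have h3 : (symN N act Fo).w (some (d, h)) (some (d, g)) = N.w h g := if_pos rfl
        rw [h3]
        by_cases hw : 0 < N.w h g
        · rw [ih (N.rank h) (by rw [← hg]; exact N.acyc _ _ hw) h rfl]
        · have : N.w h g = 0 := by omega
          rw [this, zero_smul, zero_smul]
      · intro d' _ hd'
        refine Finset.sum_eq_zero fun h _ => ?_
        have h3 : (symN N act Fo).w (some (d', h)) (some (d, g)) = 0 := if_neg hd'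
        rw [h3, zero_smul]
      · intro h
        exact absurd (Finset.mem_univ _) h

lemma symN_eval [Fintype D] (N : Net I K Gt) (act : D →* Equiv.Perm I) (Fo : Multiset K → K)
    (x : I → K) :
    (symN N act Fo).eval x = Fo (∑ d : D, {N.eval (x ∘ act d)}) := by
  classical
  have h1 : (symN N act Fo).inp none = none := rfl
  show (symN N act Fo).val x none = _
  rw [Net.val_none _ _ h1]
  show Fo _ = _
  congr 1
  rw [Fintype.sum_option]
  have h2 : (symN N act Fo).w none none = 0 := rfl
  rw [h2, zero_smul, zero_add, Fintype.sum_prod_type]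
  refine Finset.sum_congr rfl fun d _ => ?_
  rw [Finset.sum_eq_single N.out]
  · have h4 : (symN N act Fo).w (some (d, N.out)) none = 1 := if_pos rfl
    rw [h4, one_smul, symN_val N act Fo x d _ _ rfl]
    rfl
  · intro h _ hh
    have h4 : (symN N act Fo).w (some (d, h)) none = 0 := if_neg hh
    rw [h4, zero_smul]
  · intro h
    exact absurd (Finset.mem_univ _) h

lemma symN_aut (N : Net I K Gt) (act : D →* Equiv.Perm I) (Fo : Multiset K → K) (d0 : D) :
    ∃ φ, (symN N act Fo).IsAut (act d0) φ := by
  classical
  refine ⟨Equiv.optionCongr ((Equiv.mulLeft d0).prodCongr (Equiv.refl Gt)), ?_, ?_, ?_, rfl⟩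
  · intro g
    rcases g with _ | ⟨d, g⟩
    · rfl
    · show (N.inp g).map (act (d0 * d)) = ((N.inp g).map (act d)).map (act d0)
      rw [Option.map_map]
      congr 1
      rw [map_mul]
      rfl
  · intro h g
    rcases h with _ | ⟨d, h⟩
    · rcases g with _ | ⟨d', g⟩ <;> rfl
    · rcases g with _ | ⟨d', g⟩
      · rfl
      · show (if d0 * d = d0 * d' then N.w h g else 0) = if d = d' then N.w h g else 0
        by_cases hd : d = d'
        · rw [if_pos hd, if_pos (by rw [hd])]
        · rw [if_neg hd, if_neg (fun h' => hd (mul_left_cancel h'))]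
  · intro g
    rcases g with _ | ⟨d, g⟩ <;> rfl

open Classical in
/-- the gate which checks that all its inputs are equal to `c`, with answers `c` and `c'` -/
noncomputable def allGate (c c' : K) (s : Multiset K) : K := if ∀ v ∈ s, v = c then c else c'

lemma allGate_sum [Fintype D] (c c' : K) (f : D → K) :
    (allGate c c' (∑ d : D, ({f d} : Multiset K)) = c ∨ allGate c c' (∑ d : D, ({f d} : Multiset K)) = c') ∧
    ((∀ d, f d = c) → allGate c c' (∑ d : D, ({f d} : Multiset K)) = c) ∧
    ((∃ d, f d ≠ c) → allGate c c' (∑ d : D, ({f d} : Multiset K)) = c') := by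
  have hmem : ∀ v, v ∈ (∑ d : D, ({f d} : Multiset K)) ↔ ∃ d, v = f d := by
    intro v
    rw [Multiset.mem_sum]
    simp
  refine ⟨?_, ?_, ?_⟩
  · unfold allGate
    split_ifs
    · exact Or.inl rfl
    · exact Or.inr rfl
  · intro h
    unfold allGate
    rw [if_pos]
    intro v hv
    obtain ⟨d, rfl⟩ := (hmem v).mp hv
    exact h d
  · rintro ⟨d, hd⟩
    unfold allGate
    rw [if_neg]
    intro h
    exact hd (h _ ((hmem _).mpr ⟨d, rfl⟩))

end H522R3.Au
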